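import Mathlib

/-!
# Elated numbers in odd bases

In an odd base the elated function maps even numbers to even numbers, so no even number is elated.
-/

namespace Pool.Agent.Results.MP_bebd57_nt.OddBases

/-- The `b`-elated function: leading digit times the sum of the squares of the digits.
(`Nat.digits b a` lists the digits starting with the least significant one.) -/
def E (b a : ℕ) : ℕ := (Nat.digits b a).getLastD 0 * ((Nat.digits b a).map (fun d => d ^ 2)).sum

lemma sq_sum_mod (l : List ℕ) : (l.map (fun d => d ^ 2)).sum % 2 = l.sum % 2 := by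
  induction l with
  | nil => rfl
  | cons d l ih =>
    simp only [List.map_cons, List.sum_cons]
    rw [Nat.add_mod, ih, Nat.add_mod d]
    have : d ^ 2 % 2 = d % 2 := by
      rcases Nat.mod_two_eq_zero_or_one d with h | h <;> simp [Nat.pow_mod, h]
    rw [this]

lemma even_E {b a : ℕ} (hb : b % 2 = 1) (ha : a % 2 = 0) : E b a % 2 = 0 := by
  have h1 : a ≡ (Nat.digits b a).sum [MOD 2] := Nat.modEq_digits_sum 2 b hb a
  have h2 : ((Nat.digits b a).map (fun d => d ^ 2)).sum % 2 = 0 := by
    rw [sq_sum_mod, ← h1]; exact ha
  unfold E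
  rw [Nat.mul_mod, h2, mul_zero, Nat.zero_mod]

lemma even_iter {b a : ℕ} (hb : b % 2 = 1) (ha : a % 2 = 0) (k : ℕ) : (E b)^[k] a % 2 = 0 := by
  induction k with
  | zero => exact ha
  | succ k ih => rw [Function.iterate_succ_apply']; exact even_E hb ih

/-- **Main result**: in every odd base `b > 2` no even positive integer is `b`-elated. -/
theorem result (b : ℕ) (_hb : 2 < b) (hodd : Odd b) (a : ℕ) (_ha : 0 < a) (heven : Even a) :
    ∀ k : ℕ, (E b)^[k] a ≠ 1 := by
  intro k h
  have := even_iter (Nat.odd_iff.1 hodd) (Nat.even_iff.1 heven) k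
  omega

end Pool.Agent.Results.MP_bebd57_nt.OddBases
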